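import Pool.Agent.Q5.LI.Half
import Pool.Agent.Q5.DC.Law
import Pool.Agent.Q5.DC.JLaw
import Pool.Agent.Q5.AI.Fam

/-!
# Euler products over the finite places of a number field with local roots in the unit disc and centre `1/2`
-/

set_option autoImplicit false

open MeasureTheory Filter Topology Set Complex NumberField IsDedekindDomain

namespace Pool.Agent.Q5.NF

open Pool.Agent.TH942.ES (Sys zv xv cv LE nf_sys)
open Pool.Agent.H921R2.TatePole (nm two_le_nm)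
open Pool.Agent.TH270.MS (Pl Mc DvR BM)
open Pool.Agent.Q5.MS (Pv Sq bm_dvR)
open Pool.Agent.Q5.BP (MSq FB BSq DvP bm_log bm_dvP)
open Pool.Agent.Q5.AP (Par cut cm par_of_cm M)
open Pool.Agent.Q5.DC (lim_shift int_nonneg)
open Pool.Agent.Q5.VA (NS)
open Pool.Agent.Q5.LI (RHH LeadH multH hmc mu_H)

variable {K : Type} [Field K] [NumberField K] {n : ℕ} {S : Finset (HeightOneSpectrum (𝓞 K))}
  {r : HeightOneSpectrum (𝓞 K) → Fin n → ℂ} {F : ℂ → ℂ}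

/-- the restriction to the places outside of `S` -/
def res (S : Finset (HeightOneSpectrum (𝓞 K))) (r : HeightOneSpectrum (𝓞 K) → Fin n → ℂ)
    (v : {v : HeightOneSpectrum (𝓞 K) // v ∉ S}) (j : Fin n) : ℂ := r v.1 j

/-- the local roots outside of `S` are in the closed unit disc, with real power sums -/
def Roots (S : Finset (HeightOneSpectrum (𝓞 K))) (r : HeightOneSpectrum (𝓞 K) → Fin n → ℂ) : Prop :=
  ∀ v : HeightOneSpectrum (𝓞 K), v ∉ S → (∀ j, ‖r v j‖ ≤ 1) ∧ ∀ k : ℕ, (∑ j, r v j ^ k).im = 0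

/-- `F` is the Euler product `∏_{v ∉ S} ∏_j (1 - r_{v,j} q_v^(-s))⁻¹` for `Re s > 1`, continued holomorphically and with
polynomial growth to a half plane `Re s > 1/2 - η`. -/
def IsL (S : Finset (HeightOneSpectrum (𝓞 K))) (r : HeightOneSpectrum (𝓞 K) → Fin n → ℂ) (F : ℂ → ℂ) : Prop :=
  (∃ (η C : ℝ) (κ : ℕ), 0 < η ∧
    ∀ s : ℂ, 1 / 2 - η < s.re → DifferentiableAt ℂ F s ∧ ‖F s‖ ≤ C * (1 + ‖s‖) ^ κ) ∧
  ∀ s : ℂ, 1 < s.re → HasProd (fun v : {v : HeightOneSpectrum (𝓞 K) // v ∉ S} =>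
    (∏ j, (1 - r v.1 j * (nm v.1 : ℂ) ^ (-s)))⁻¹) (F s)

/-- `P*(x) = exp (- ∑_{v ∉ S, q_v^k ≤ x} (∑_j r_{v,j}^k)/(k q_v^{k/2}))`; the index `z = (v, k - 1)` -/
noncomputable def product (S : Finset (HeightOneSpectrum (𝓞 K))) (r : HeightOneSpectrum (𝓞 K) → Fin n → ℂ)
    (x : ℝ) : ℝ :=
  Real.exp (-∑ᶠ (z : {v : HeightOneSpectrum (𝓞 K) // v ∉ S} × ℕ) (_ : (nm z.1.1 : ℝ) ^ (z.2 + 1) ≤ x),
    (∑ j, r z.1.1 j ^ (z.2 + 1)).re / (((z.2 : ℝ) + 1) * √(nm z.1.1 : ℝ) ^ (z.2 + 1)))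

/-- `δ(x) = log (A P*(x) / (e^γ log x)^ρ)` -/
noncomputable def dev (S : Finset (HeightOneSpectrum (𝓞 K))) (r : HeightOneSpectrum (𝓞 K) → Fin n → ℂ)
    (ρ A x : ℝ) : ℝ :=
  Real.log (A * product S r x / (Real.exp Real.eulerMascheroniConstant * Real.log x) ^ ρ)

theorem Roots.le (R : Roots S r) (v : {v : HeightOneSpectrum (𝓞 K) // v ∉ S}) (j : Fin n) :
    ‖res S r v j‖ ≤ 1 := (R v.1 v.2).1 j

theorem Roots.real_z (R : Roots S r) (v : {v : HeightOneSpectrum (𝓞 K) // v ∉ S}) (k : ℕ) :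
    (∑ j, zv (NS S) (res S r) v j ^ k).im = 0 := by
  have h1 : ∑ j, zv (NS S) (res S r) v j ^ k =
      (∑ j, r v.1 j ^ k) * (((√((NS S v : ℕ) : ℝ) ^ k)⁻¹ : ℝ) : ℂ) := by
    rw [Finset.sum_mul]
    refine Finset.sum_congr rfl fun j _ => ?_
    unfold zv res
    rw [div_pow, div_eq_mul_inv]
    push_cast
    rfl
  rw [h1, Complex.im_mul_ofReal, (R v.1 v.2).2, zero_mul]

theorem Roots.norm_z (R : Roots S r) (v : {v : HeightOneSpectrum (𝓞 K) // v ∉ S}) (j : Fin n) :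
    ‖zv (NS S) (res S r) v j‖ < 1 := by
  have hq : (2 : ℝ) ≤ nm v.1 := by exact_mod_cast two_le_nm v.1
  unfold zv
  have h1 : (1 : ℝ) < √((NS S v : ℕ) : ℝ) := by
    rw [Real.lt_sqrt zero_le_one]
    have : ((NS S v : ℕ) : ℝ) = (nm v.1 : ℝ) := rfl
    rw [this]
    linarith
  rw [norm_div, Complex.norm_real, Real.norm_of_nonneg (by positivity), div_lt_one (by linarith)]
  exact (R.le v j).trans_lt h1

theorem Roots.log_im (R : Roots S r) (v : {v : HeightOneSpectrum (𝓞 K) // v ∉ S}) :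
    (∑ j, log (1 - zv (NS S) (res S r) v j)).im = 0 := by
  have h1 : HasSum (fun k : ℕ => ∑ j, zv (NS S) (res S r) v j ^ k / k)
      (∑ j, -log (1 - zv (NS S) (res S r) v j)) :=
    hasSum_sum fun j _ => hasSum_taylorSeries_neg_log (R.norm_z v j)
  have h2 := hasSum_im h1
  have h3 : ∀ k : ℕ, (∑ j, zv (NS S) (res S r) v j ^ k / (k : ℂ)).im = 0 := by
    intro k
    rw [← Finset.sum_div]
    have : (∑ j, zv (NS S) (res S r) v j ^ k) / (k : ℂ) =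
        (∑ j, zv (NS S) (res S r) v j ^ k) * (((k : ℝ)⁻¹ : ℝ) : ℂ) := by
      rw [div_eq_mul_inv]
      push_cast
      rfl
    rw [this, Complex.im_mul_ofReal, R.real_z, zero_mul]
  simp only [h3] at h2
  have h4 := h2.unique hasSum_zero
  rw [Finset.sum_neg_distrib, Complex.neg_im, neg_eq_zero] at h4
  exact h4

theorem Roots.sys (R : Roots S r) : Sys (NS S) (res S r) :=
  nf_sys (fun v => v ∉ S) (res S r) R.le fun v => R.log_im v

theorem cP_N (z : {v : HeightOneSpectrum (𝓞 K) // v ∉ S} × ℕ) :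
    Pool.Agent.TH942.ES.cP (NS S) (res S r) z =
    (∑ j, r z.1.1 j ^ (z.2 + 1)).re / (((z.2 : ℝ) + 1) * √(nm z.1.1 : ℝ) ^ (z.2 + 1)) := by
  have hq2 : (2 : ℝ) ≤ nm z.1.1 := by exact_mod_cast two_le_nm z.1.1
  have hq : (0 : ℝ) < nm z.1.1 := by linarith
  have h1 : ∑ j, zv (NS S) (res S r) z.1 j ^ (z.2 + 1) =
      (∑ j, r z.1.1 j ^ (z.2 + 1)) * (((√(nm z.1.1 : ℝ) ^ (z.2 + 1))⁻¹ : ℝ) : ℂ) := by
    rw [Finset.sum_mul]
    refine Finset.sum_congr rfl fun j _ => ?_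
    unfold zv res
    rw [div_pow, div_eq_mul_inv]
    push_cast
    rfl
  have h0 : 0 < √(nm z.1.1 : ℝ) := Real.sqrt_pos.2 hq
  unfold Pool.Agent.TH942.ES.cP
  rw [h1, Complex.re_mul_ofReal]
  field_simp

theorem factorN (v : {v : HeightOneSpectrum (𝓞 K) // v ∉ S}) (s : ℂ) :
    ∏ j, (1 - zv (NS S) (res S r) v j * xv (NS S) v (s - (((1 / 2 : ℝ)) : ℂ)))⁻¹ =
      (∏ j, (1 - r v.1 j * (nm v.1 : ℂ) ^ (-s)))⁻¹ := by
  have hq2 : (2 : ℝ) ≤ nm v.1 := by exact_mod_cast two_le_nm v.1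
  have hq : (0 : ℝ) < nm v.1 := by linarith
  have hqc : (nm v.1 : ℂ) ≠ 0 := by exact_mod_cast hq.ne'
  rw [Finset.prod_inv_distrib]
  congr 1
  refine Finset.prod_congr rfl fun j _ => ?_
  congr 1
  have h1 : xv (NS S) v (s - ((1 / 2 : ℝ) : ℂ)) = (nm v.1 : ℂ) ^ (-(s - ((1 / 2 : ℝ) : ℂ))) := by
    unfold xv
    have e : ((NS S v : ℕ) : ℝ) = (nm v.1 : ℝ) := rfl
    rw [e, Complex.cpow_def_of_ne_zero hqc, ← Complex.ofReal_natCast, ← Complex.ofReal_log hq.le]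
    congr 1
    ring
  have h2 : ((√((NS S v : ℕ) : ℝ) : ℝ) : ℂ)⁻¹ = (nm v.1 : ℂ) ^ (-((1 / 2 : ℝ) : ℂ)) := by
    have e : ((NS S v : ℕ) : ℝ) = (nm v.1 : ℝ) := rfl
    rw [e, Real.sqrt_eq_rpow, Complex.ofReal_cpow hq.le, Complex.cpow_neg]
    push_cast
    rfl
  unfold zv res
  rw [h1, div_eq_mul_inv, h2, mul_assoc, ← Complex.cpow_add _ _ hqc]
  congr 2
  ring

/-- the data of the theorems -/
theorem mcN (R : Roots S r) (hF : IsL S r F) :
    ∃ (G₀ : ℂ → ℂ) (k κ : ℕ) (η C : ℝ),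
      Mc (NS S) (res S r) (fun s => F (((1 / 2 : ℝ) : ℂ) + s)) G₀ k κ η C := by
  refine Q5.VA.temp_data (c := (1 / 2 : ℝ)) R.sys R.real_z ⟨?_, fun s hs => ?_⟩
  · obtain ⟨η, C, κ, hη, h⟩ := hF.1
    exact ⟨η, C, 0, κ, F, hη, h, fun s _ _ => by rw [pow_zero, one_mul]⟩
  · exact (hF.2 s (by linarith)).congr_fun fun p => factorN p s

theorem log_product (x : ℝ) : Real.log (product S r x) = -Pl (NS S) (res S r) x := by
  unfold product Pl
  rw [Real.log_exp]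
  congr 1
  refine finsum_congr fun z => finsum_congr fun _ => ?_
  rw [cP_N]

theorem dev_eq {ρ A x : ℝ} (hA : 0 < A) (hx : Real.exp 1 ≤ x) :
    dev S r ρ A x = -DvR (NS S) (res S r) ρ A x := by
  have hl : 0 < Real.log x := by linarith [Pool.Agent.TH270.MS.one_le_log hx]
  have h1 : 0 < Real.exp Real.eulerMascheroniConstant * Real.log x :=
    mul_pos (Real.exp_pos _) hl
  have h2 := Real.rpow_pos_of_pos h1 ρ
  have h3 : 0 < product S r x := Real.exp_pos _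
  unfold dev
  rw [Real.log_div (mul_pos hA h3).ne' h2.ne', Real.log_mul hA.ne'
    h3.ne', log_product, Real.log_rpow h1, Real.log_mul (Real.exp_pos _).ne' hl.ne',
    Real.log_exp]
  unfold DvR
  ring

theorem IsL.ana (hF : IsL S r F) {s : ℂ} (hs : 1 / 2 ≤ s.re) : AnalyticAt ℂ F s := by
  obtain ⟨η, C, κ, hη, h⟩ := hF.1
  have hU : IsOpen {s : ℂ | 1 / 2 - η < s.re} := isOpen_lt continuous_const Complex.continuous_re
  exact (DifferentiableOn.analyticOnNhd (fun z hz => (h z hz).1.differentiableWithinAt) hU) s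
    (show 1 / 2 - η < s.re by linarith)

theorem lead_iff (hF : IsL S r F) (ρ : ℝ) {A : ℝ} (hA : 0 < A) : RHH F ∧ LeadH F ρ A ↔
    ((∀ s : ℂ, 0 < s.re → F (((1 / 2 : ℝ) : ℂ) + s) ≠ 0) ∧
      ∃ e : ℤ, ρ = e ∧ Tendsto (fun s => F (((1 / 2 : ℝ) : ℂ) + s) / s ^ e) (𝓝[≠] 0) (𝓝 (A : ℂ))) := by
  rw [Q5.VA.zeros_shiftC]
  simp only [lim_shift]
  rw [hmc]
  refine and_congr_right fun _ => ?_
  unfold LeadH
  constructor
  · rintro ⟨r, h1, h2⟩
    refine ⟨(r : ℤ), by rw [h1]; push_cast; rfl, ?_⟩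
    simpa only [zpow_natCast] using h2
  · rintro ⟨e, h1, h2⟩
    have he : 0 ≤ e := int_nonneg (hF.ana (s := (1 / 2 : ℂ)) (by norm_num)) (by exact_mod_cast hA.ne') h2
    obtain ⟨r, rfl⟩ := Int.eq_ofNat_of_zero_le he
    refine ⟨r, by rw [h1]; push_cast; rfl, ?_⟩
    simpa only [zpow_natCast] using h2

/-- everything about the error term -/
theorem errN (R : Roots S r) (hF : IsL S r F) {ρ A : ℝ} (hA : 0 < A) :
    BM (fun x => Real.log x * dev S r ρ A x) ∧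
    (RHH F ∧ LeadH F ρ A ↔ BSq (dev S r ρ A)) ∧
    (RHH F ∧ LeadH F ρ A → ∃ V : ℝ, HasSum (fun t : ℝ => ((multH F t : ℝ) / t) ^ 2) V ∧
      Par (fun u => (cut (fun x => Real.log x * dev S r ρ A x) u : ℂ)) (cm (multH F)) V) := by
  obtain ⟨G₀, k, κ, η, C, H⟩ := mcN R hF
  obtain ⟨t, f⟩ := Pool.Agent.Q5.BP.pack H ρ hA (lead_iff hF ρ hA) (mu_H F)
    (f := dev S r ρ A) fun y hy => dev_eq hA hy
  have hW : BM fun x => Real.log x * dev S r ρ A x := by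
    have h1 : BM fun x => Real.log x * ((-1) * DvR (NS S) (res S r) ρ A x) :=
      bm_log.mul ((BM.const (-1)).mul (bm_dvR H ρ A))
    refine Pool.Agent.Q5.OM.bm_congr h1 fun y hy => ?_
    rw [dev_eq hA hy, neg_one_mul]
  exact ⟨hW, t.out 0 1, fun h => par_of_cm hW ((t.out 0 2).1 h) (f h)⟩

/-- under the Riemann hypothesis the leading coefficient exists and is positive -/
theorem lead_exists (R : Roots S r) (hF : IsL S r F) (h : RHH F) :
    ∃ (e : ℕ) (A : ℝ), 0 < A ∧ LeadH F e A := by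
  obtain ⟨G₀, k, κ, η, C, H⟩ := mcN R hF
  obtain ⟨e, g, p, he, Q⟩ := H.cn
  have hz : ∀ s : ℂ, 0 < s.re → F (((1 / 2 : ℝ) : ℂ) + s) ≠ 0 := (Q5.VA.zeros_shiftC F (1 / 2 : ℝ)).2 h
  have hord := (Pool.Agent.TH270.MS.mero_of Q.hg Q.hg0
    (Pool.Agent.TH270.MS.local_form H.hη H.hΨ Q.near)).2
  have t1 := Pool.Agent.Q5.MS.order_real H (((p : ℤ) - k : ℤ) : ℝ)
  have e1 := t1.out 0 1
  obtain ⟨A, hA, h1⟩ := e1.1 ⟨hz, (p : ℤ) - k, rfl, hord⟩
  have t2 := Pool.Agent.Q5.MS.lead_real H (((p : ℤ) - k : ℤ) : ℝ) hA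
  have e2 := t2.out 1 0
  have h2 := e2.1 h1
  obtain ⟨-, r, hr, h3⟩ := (lead_iff hF _ hA).2 h2
  exact ⟨r, A, hA, r, rfl, h3⟩

/-- order `0` at the centre -/
theorem lead_zero (hF : IsL S r F) {A : ℝ} : LeadH F 0 A ↔ F (1 / 2) = A := by
  have hc : Tendsto F (𝓝[≠] (1 / 2 : ℂ)) (𝓝 (F (1 / 2))) :=
    ((hF.ana (s := (1 / 2 : ℂ)) (by norm_num)).continuousAt.tendsto).mono_left nhdsWithin_le_nhds
  unfold LeadH
  constructor
  · rintro ⟨r, h1, h2⟩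
    have hr : r = 0 := by exact_mod_cast h1.symm
    rw [hr] at h2
    simp only [pow_zero, div_one] at h2
    exact tendsto_nhds_unique hc h2
  · intro h
    refine ⟨0, by simp, ?_⟩
    simp only [pow_zero, div_one]
    rw [← h]
    exact hc

/-- the value is zero if the order is positive -/
theorem lead_pos (hF : IsL S r F) {ρ A : ℝ} (hρ : 0 < ρ) (h : LeadH F ρ A) : F (1 / 2) = 0 := by
  have hc : Tendsto F (𝓝[≠] (1 / 2 : ℂ)) (𝓝 (F (1 / 2))) :=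
    ((hF.ana (s := (1 / 2 : ℂ)) (by norm_num)).continuousAt.tendsto).mono_left nhdsWithin_le_nhds
  obtain ⟨e, h1, h2⟩ := h
  have he : e ≠ 0 := by
    rintro rfl
    rw [h1] at hρ
    simp at hρ
  have h3 : Tendsto (fun s : ℂ => (s - 1 / 2) ^ e) (𝓝[≠] (1 / 2 : ℂ)) (𝓝 0) := by
    have h4 : Continuous fun s : ℂ => (s - 1 / 2) ^ e := by fun_prop
    have h5 := h4.tendsto (1 / 2)
    rw [sub_self, zero_pow he] at h5
    exact h5.mono_left nhdsWithin_le_nhds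
  have h6 := h2.mul h3
  rw [mul_zero] at h6
  refine tendsto_nhds_unique hc (h6.congr' ?_)
  filter_upwards [self_mem_nhdsWithin] with s hs
  have hs0 : (s - 1 / 2) ^ e ≠ 0 := pow_ne_zero _ (sub_ne_zero.2 hs)
  exact div_mul_cancel₀ _ hs0

/-- the value at the centre is nonzero, with the Riemann hypothesis -/
theorem nonvanishing (R : Roots S r) (hF : IsL S r F) :
    RHH F ∧ F (1 / 2) ≠ 0 ↔ ∃ A : ℝ, 0 < A ∧ RHH F ∧ LeadH F 0 A := by
  constructor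
  · rintro ⟨h1, h2⟩
    obtain ⟨e, A, hA, h3⟩ := lead_exists R hF h1
    have he : e = 0 := by
      by_contra he
      exact h2 (lead_pos hF (by exact_mod_cast Nat.pos_of_ne_zero he) h3)
    refine ⟨A, hA, h1, ?_⟩
    rw [he, Nat.cast_zero] at h3
    exact h3
  · rintro ⟨A, hA, h1, h2⟩
    refine ⟨h1, ?_⟩
    rw [(lead_zero hF).1 h2]
    exact_mod_cast hA.ne'

end Pool.Agent.Q5.NF
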