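import Pool.Agent.Q5.NF.Half
import Pool.Agent.Q5.OM.Pack

/-!
# One-sided bounds and densities for the central error terms over a number field
-/

set_option autoImplicit false

open MeasureTheory Filter Topology Set Complex NumberField IsDedekindDomain

namespace Pool.Agent.Q5.NF

open Pool.Agent.TH270.MS (DvR BM)
open Pool.Agent.Q5.BP (MSq FB BSq)
open Pool.Agent.Q5.VA (NS)
open Pool.Agent.Q5.LI (RHH LeadH multH mu_H)
open Pool.Agent.Q5.OM (Share)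

variable {K : Type} [Field K] [NumberField K] {n : ℕ} {S : Finset (HeightOneSpectrum (𝓞 K))}
  {r : HeightOneSpectrum (𝓞 K) → Fin n → ℂ} {F : ℂ → ℂ}

/-- mean squares, coefficients -/
theorem readN (R : Roots S r) (hF : IsL S r F) {ρ A : ℝ} (hA : 0 < A) :
    List.TFAE [RHH F ∧ LeadH F ρ A, BSq (dev S r ρ A),
      ∃ V : ℝ, HasSum (fun t : ℝ => ((multH F t : ℝ) / t) ^ 2) V ∧ Tendsto (MSq (dev S r ρ A)) atTop (𝓝 V)] ∧
    (RHH F ∧ LeadH F ρ A → ∀ t : ℝ,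
      Tendsto (FB (dev S r ρ A) t) atTop (𝓝 (-((multH F t : ℂ) * I / t)))) := by
  obtain ⟨G₀, k, κ, η, C, H⟩ := mcN R hF
  exact Pool.Agent.Q5.BP.pack H ρ hA (lead_iff hF ρ hA) (mu_H F)
    (f := dev S r ρ A) fun y hy => dev_eq hA hy

/-- one-sided bounds and densities -/
theorem oscN (R : Roots S r) (hF : IsL S r F) {ρ A : ℝ} (hA : 0 < A) :
    (∀ B : ℝ, (∀ᶠ y : ℝ in atTop, Real.log y * dev S r ρ A y ≤ B) →
      RHH F ∧ (LeadH F ρ A → ∀ t : ℝ, t ≠ 0 → (multH F t : ℝ) / |t| ≤ B)) ∧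
    (∀ B : ℝ, (∀ x : ℝ, 1 / 2 < x → F x ≠ 0) → (∀ᶠ y : ℝ in atTop, -B ≤ Real.log y * dev S r ρ A y) →
      RHH F ∧ (LeadH F ρ A → ∀ t : ℝ, t ≠ 0 → (multH F t : ℝ) / |t| ≤ B)) ∧
    (RHH F ∧ LeadH F ρ A → ∀ V : ℝ, HasSum (fun t : ℝ => ((multH F t : ℝ) / t) ^ 2) V →
      ∀ t c : ℝ, t ≠ 0 → 0 ≤ c → 2 * c < (multH F t : ℝ) / |t| → ∀ ε : ℝ, 0 < ε → ∀ᶠ Y : ℝ in atTop,
        ((multH F t : ℝ) / |t| - 2 * c) ^ 2 / (4 * V) - ε ≤ Share (fun y => Real.log y * dev S r ρ A y) c Y ∧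
        ((multH F t : ℝ) / |t| - 2 * c) ^ 2 / (4 * V) - ε ≤
          Share (fun y => -(Real.log y * dev S r ρ A y)) c Y) := by
  obtain ⟨t, f⟩ := readN R hF (ρ := ρ) hA
  have hW := (errN R hF (ρ := ρ) hA).1
  obtain ⟨G₀, k, κ, η, C, H⟩ := mcN R hF
  have hcl : Tendsto (fun y : ℝ => Real.log y * -DvR (NS S) (res S r) ρ A y -
      Real.log y * dev S r ρ A y) atTop (𝓝 0) := by
    refine tendsto_const_nhds.congr' ?_
    filter_upwards [eventually_ge_atTop (Real.exp 1)] with y hy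
    rw [dev_eq hA hy, sub_self]
  obtain ⟨k1, k2, k3⟩ := Pool.Agent.Q5.OM.om_pack H ρ A (P := RHH F ∧ LeadH F ρ A) (m := multH F) hW hcl
    (fun h => (t.out 0 2).1 h) f
  have hz : (∀ s : ℂ, 0 < s.re → F (((1 / 2 : ℝ) : ℂ) + s) ≠ 0) ↔ RHH F := Q5.VA.zeros_shiftC F (1 / 2 : ℝ)
  refine ⟨fun B hB => ?_, fun B hx hB => ?_, k3⟩
  · obtain ⟨h3, h4⟩ := k1 B hB
    exact ⟨hz.1 h3, fun hL => h4 ⟨hz.1 h3, hL⟩⟩
  · obtain ⟨h3, h4⟩ := k2 B (fun x hx0 => by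
      have := hx (1 / 2 + x) (by linarith)
      push_cast at this ⊢
      exact this) hB
    exact ⟨hz.1 h3, fun hL => h4 ⟨hz.1 h3, hL⟩⟩

end Pool.Agent.Q5.NF
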